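import Mathlib
import Pool.Agent.Helper90.SpinalDefs
import Pool.Agent.Helper93.Geo.NormalClosure

/-!
# Geodesic growth of groups with an infinite dihedral quotient

`G` acts on the integers by the isometries `x ↦ χ g + ε g * x`; `S` is a finite symmetric
generating set.  A word is read with a sign `σ` (the state): the next letter `s` moves by `σ * χ s`
and changes the sign by `ε s`.  After a change of origin the largest value `M` of `|χ|` on `S` is
attained with both signs in a compatible way, and from every state there is a fast loop of length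
one or two.  The excess `M * length - σ * χ` is additive along words.
-/

set_option autoImplicit false

namespace Pool.Agent.Helper45.Geo

open Pool.Agent.Helper90.Spinal

variable {G : Type*} [Group G]

/-- The excess of a word read from the state `σ`. -/
def ex (χ : G → ℤ) (M : ℤ) (σ : ℤˣ) (w : List G) : ℤ :=
  M * (w.length : ℤ) - (σ : ℤ) * χ w.prod

section basic

variable {ε : G →* ℤˣ} {χ : G → ℤ} {M : ℤ} {S : Set G} {N : Subgroup G}

theorem chi_one (hχ : ∀ g h, χ (g * h) = χ g + ((ε g : ℤˣ) : ℤ) * χ h) : χ 1 = 0 := by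
  have h := hχ 1 1
  rw [mul_one, map_one, Units.val_one, one_mul] at h
  linarith

theorem ex_append (hχ : ∀ g h, χ (g * h) = χ g + ((ε g : ℤˣ) : ℤ) * χ h) (σ : ℤˣ) (u v : List G) :
    ex χ M σ (u ++ v) = ex χ M σ u + ex χ M (σ * ε u.prod) v := by
  simp only [ex, List.prod_append, hχ, List.length_append, Units.val_mul]
  push_cast
  ring

theorem ex_nil (hχ : ∀ g h, χ (g * h) = χ g + ((ε g : ℤˣ) : ℤ) * χ h) (σ : ℤˣ) :
    ex χ M σ ([] : List G) = 0 := by
  simp [ex, chi_one hχ]

theorem ex_single (σ : ℤˣ) (a : G) : ex χ M σ [a] = M - (σ : ℤ) * χ a := by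
  simp [ex]

theorem ex_cons (hχ : ∀ g h, χ (g * h) = χ g + ((ε g : ℤˣ) : ℤ) * χ h) (σ : ℤˣ) (a : G)
    (w : List G) : ex χ M σ (a :: w) = (M - (σ : ℤ) * χ a) + ex χ M (σ * ε a) w := by
  have h := ex_append (M := M) hχ σ [a] w
  rw [ex_single] at h
  simpa using h

omit [Group G] in
theorem letter_nonneg (hM : ∀ s ∈ S, |χ s| ≤ M) (σ : ℤˣ) {a : G} (ha : a ∈ S) :
    0 ≤ M - (σ : ℤ) * χ a := by
  have h := hM a ha
  have h1 := abs_le.1 h
  rcases Int.units_eq_one_or σ with rfl | rfl
  · rw [Units.val_one, one_mul]; linarith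
  · rw [Units.val_neg, Units.val_one]; linarith

theorem ex_nonneg (hχ : ∀ g h, χ (g * h) = χ g + ((ε g : ℤˣ) : ℤ) * χ h)
    (hM : ∀ s ∈ S, |χ s| ≤ M) : ∀ (w : List G) (σ : ℤˣ), (∀ s ∈ w, s ∈ S) → 0 ≤ ex χ M σ w := by
  intro w
  induction w with
  | nil => intro σ _; rw [ex_nil hχ]
  | cons a w ih =>
    intro σ h
    rw [ex_cons hχ]
    have h1 := ih (σ * ε a) (fun s hs => h s (List.mem_cons_of_mem _ hs))
    have h2 := letter_nonneg hM σ (h a List.mem_cons_self)
    linarith

/-- Words of excess zero are geodesic. -/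
theorem geodesic_of_zero (hχ : ∀ g h, χ (g * h) = χ g + ((ε g : ℤˣ) : ℤ) * χ h)
    (hM : ∀ s ∈ S, |χ s| ≤ M) (hM0 : 0 < M) {w : List G} (hw : ∀ s ∈ w, s ∈ S) {σ : ℤˣ}
    (h0 : ex χ M σ w = 0) : IsGeodesic S w := by
  refine ⟨hw, fun l hl he => ?_⟩
  have h1 := ex_nonneg (ε := ε) hχ hM l σ hl
  simp only [ex] at h0 h1
  rw [he] at h1
  have h2 : M * (w.length : ℤ) ≤ M * (l.length : ℤ) := by linarith
  exact_mod_cast le_of_mul_le_mul_left h2 hM0

/-- A word over `S` whose excess, read from `σ`, is minimal in its coset of `N`. -/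
def Tight (χ : G → ℤ) (M : ℤ) (S : Set G) (N : Subgroup G) (σ : ℤˣ) (w : List G) : Prop :=
  (∀ s ∈ w, s ∈ S) ∧ ∀ w' : List G, (∀ s ∈ w', s ∈ S) →
    ((w'.prod : G) : G ⧸ N) = ((w.prod : G) : G ⧸ N) → ex χ M σ w ≤ ex χ M σ w'

theorem Tight.geodesic (hM : 0 < M) {σ : ℤˣ} {w : List G} (h : Tight χ M S N σ w) :
    IsGeodesic S w := by
  refine ⟨h.1, fun l' hl' he => ?_⟩
  have h1 := h.2 l' hl' (by rw [he])
  simp only [ex, he] at h1
  have h3 : M * (w.length : ℤ) ≤ M * (l'.length : ℤ) := by linarith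
  exact_mod_cast le_of_mul_le_mul_left h3 hM

theorem eps_congr [N.Normal] (hN : N ≤ ε.ker) {g h : G} (e : ((g : G) : G ⧸ N) = ((h : G) : G ⧸ N)) :
    ε g = ε h := by
  have h1 : g⁻¹ * h ∈ N := QuotientGroup.eq.1 e
  have h2 : ε (g⁻¹ * h) = 1 := hN h1
  rw [map_mul, map_inv, inv_mul_eq_one] at h2
  exact h2

theorem Tight.init [N.Normal] (hχ : ∀ g h, χ (g * h) = χ g + ((ε g : ℤˣ) : ℤ) * χ h)
    (hN : N ≤ ε.ker) {σ : ℤˣ} {u v : List G} (h : Tight χ M S N σ (u ++ v)) :
    Tight χ M S N σ u := by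
  refine ⟨fun s hs => h.1 s (by simp [hs]), fun u' hu' he => ?_⟩
  have h1 := h.2 (u' ++ v) (by
    intro s hs
    rcases List.mem_append.1 hs with hs | hs
    · exact hu' s hs
    · exact h.1 s (by simp [hs])) (by
      simp only [List.prod_append, QuotientGroup.mk_mul, he])
  rw [ex_append hχ, ex_append hχ, eps_congr hN he] at h1
  linarith

/-- every coset contains the value of a tight word -/
theorem exists_tight (hχ : ∀ g h, χ (g * h) = χ g + ((ε g : ℤˣ) : ℤ) * χ h)
    (hM : ∀ s ∈ S, |χ s| ≤ M) (hgen : Submonoid.closure S = ⊤) (σ : ℤˣ) (q : G ⧸ N) :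
    ∃ w, Tight χ M S N σ w ∧ ((w.prod : G) : G ⧸ N) = q := by
  classical
  obtain ⟨g, rfl⟩ := QuotientGroup.mk_surjective q
  have hg : g ∈ Submonoid.closure S := by rw [hgen]; trivial
  obtain ⟨l, hl, hlg⟩ := Submonoid.exists_list_of_mem_closure hg
  have hex : ∃ m : ℕ, ∃ w : List G, (∀ s ∈ w, s ∈ S) ∧ ((w.prod : G) : G ⧸ N) = (g : G ⧸ N) ∧
      ex χ M σ w = (m : ℤ) := by
    refine ⟨(ex χ M σ l).toNat, l, hl, by rw [hlg], ?_⟩
    rw [Int.toNat_of_nonneg (ex_nonneg hχ hM l σ hl)]
  obtain ⟨w, hw, hwq, hwe⟩ := Nat.find_spec hex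
  refine ⟨w, ⟨hw, fun w' hw' he => ?_⟩, hwq⟩
  by_contra hlt
  push Not at hlt
  have hnn := ex_nonneg hχ hM w' σ hw'
  have h1 : (ex χ M σ w').toNat < Nat.find hex := by
    have : ((ex χ M σ w').toNat : ℤ) < (Nat.find hex : ℤ) := by
      rw [Int.toNat_of_nonneg hnn, ← hwe]; exact hlt
    exact_mod_cast this
  exact Nat.find_min hex h1 ⟨w', hw', he.trans hwq, by rw [Int.toNat_of_nonneg hnn]⟩

end basic

section run

variable (ε : G →* ℤˣ) (α : ℤˣ → G)

/-- The fast word of length `n` from the state `σ`. -/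
def run : ℤˣ → ℕ → List G
  | _, 0 => []
  | σ, n + 1 => α σ :: run (σ * ε (α σ)) n

theorem run_length : ∀ (n : ℕ) (σ : ℤˣ), (run ε α σ n).length = n := by
  intro n
  induction n with
  | zero => intro σ; rfl
  | succ n ih => intro σ; simp [run, ih]

theorem run_add : ∀ (m n : ℕ) (σ : ℤˣ),
    run ε α σ (m + n) = run ε α σ m ++ run ε α (σ * ε (run ε α σ m).prod) n := by
  intro m
  induction m with
  | zero => intro n σ; simp [run]
  | succ m ih =>
    intro n σ
    have h1 : m + 1 + n = (m + n) + 1 := by ring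
    rw [h1]
    simp only [run, ih, List.cons_append, List.prod_cons, map_mul, mul_assoc]

theorem run_mem {S : Set G} (hα : ∀ σ, α σ ∈ S) : ∀ (n : ℕ) (σ : ℤˣ), ∀ s ∈ run ε α σ n, s ∈ S := by
  intro n
  induction n with
  | zero => intro σ s hs; simp [run] at hs
  | succ n ih =>
    intro σ s hs
    rw [run, List.mem_cons] at hs
    rcases hs with rfl | hs
    · exact hα σ
    · exact ih _ s hs

theorem ex_run {χ : G → ℤ} {M : ℤ} (hχ : ∀ g h, χ (g * h) = χ g + ((ε g : ℤˣ) : ℤ) * χ h)
    (hαM : ∀ σ : ℤˣ, (σ : ℤ) * χ (α σ) = M) : ∀ (n : ℕ) (σ : ℤˣ), ex χ M σ (run ε α σ n) = 0 := by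
  intro n
  induction n with
  | zero => intro σ; exact ex_nil hχ σ
  | succ n ih =>
    intro σ
    rw [run, ex_cons hχ, ih, hαM]
    ring

theorem run_even (hloop : ∀ σ, ε (α σ) * ε (α (σ * ε (α σ))) = 1) : ∀ (p : ℕ) (σ : ℤˣ),
    ε (run ε α σ (2 * p)).prod = 1 := by
  intro p
  induction p with
  | zero => intro σ; simp [run]
  | succ p ih =>
    intro σ
    have h1 : 2 * (p + 1) = 2 * p + 1 + 1 := by ring
    rw [h1, run, run, List.prod_cons, List.prod_cons, map_mul, map_mul, ← mul_assoc, hloop σ,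
      one_mul, mul_assoc, hloop σ, mul_one]
    exact ih σ

variable [DecidableEq G]

/-- The number of letters which are not fast. -/
def nt : ℤˣ → List G → ℕ
  | _, [] => 0
  | σ, a :: w => (if a = α σ then 0 else 1) + nt (σ * ε a) w

theorem nt_append : ∀ (u v : List G) (σ : ℤˣ),
    nt ε α σ (u ++ v) = nt ε α σ u + nt ε α (σ * ε u.prod) v := by
  intro u
  induction u with
  | nil => intro v σ; simp [nt]
  | cons a u ih =>
    intro v σ
    simp only [List.cons_append, nt, ih, List.prod_cons, map_mul, mul_assoc, Nat.add_assoc]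

theorem nt_run : ∀ (n : ℕ) (σ : ℤˣ), nt ε α σ (run ε α σ n) = 0 := by
  intro n
  induction n with
  | zero => intro σ; rfl
  | succ n ih => intro σ; simp [run, nt, ih]

/-- a word without `2 p` consecutive fast letters is short -/
theorem length_le_of_no_run {p : ℕ} : ∀ (w : List G) (τ : ℤˣ) (i : ℕ),
    (∀ x y, run ε α τ i ++ w ≠ x ++ run ε α (τ * ε x.prod) (2 * p) ++ y) →
    i + w.length ≤ (nt ε α (τ * ε (run ε α τ i).prod) w + 1) * (2 * p) := by
  have key : ∀ (w : List G) (τ : ℤˣ) (i : ℕ),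
      (∀ x y, run ε α τ i ++ w ≠ x ++ run ε α (τ * ε x.prod) (2 * p) ++ y) → i < 2 * p := by
    intro w τ i h
    by_contra hle
    push Not at hle
    obtain ⟨j, rfl⟩ : ∃ j, i = 2 * p + j := ⟨i - 2 * p, by omega⟩
    refine h [] (run ε α (τ * ε (run ε α τ (2 * p)).prod) j ++ w) ?_
    rw [run_add, List.nil_append, List.prod_nil, map_one, mul_one, List.append_assoc]
  intro w
  induction w with
  | nil =>
    intro τ i h
    have := key [] τ i h
    simp only [nt, List.length_nil]
    omega
  | cons a w ih =>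
    intro τ i h
    by_cases ha : a = α (τ * ε (run ε α τ i).prod)
    · have h1 : run ε α τ i ++ a :: w = run ε α τ (i + 1) ++ w := by
        rw [run_add ε α i 1 τ, List.append_assoc]
        simp [run, ha]
      have h1' : τ * ε (run ε α τ (i + 1)).prod = τ * ε (run ε α τ i).prod * ε a := by
        rw [run_add ε α i 1 τ]
        simp [run, ha, mul_assoc]
      rw [h1] at h
      have h2 := ih τ (i + 1) h
      rw [h1'] at h2
      simp only [nt, List.length_cons, if_pos ha, zero_add]
      omega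
    · have h1 := key (a :: w) τ i h
      have h2 := ih (τ * ε (run ε α τ i).prod * ε a) 0 (by
        intro x y hxy
        simp only [run, List.nil_append] at hxy
        refine h (run ε α τ i ++ [a] ++ x) y ?_
        rw [hxy]
        simp [mul_assoc])
      simp only [run, List.prod_nil, map_one, mul_one] at h2
      simp only [nt, List.length_cons, if_neg ha]
      have h3 : (1 + nt ε α (τ * ε (run ε α τ i).prod * ε a) w + 1) * (2 * p) =
        (nt ε α (τ * ε (run ε α τ i).prod * ε a) w + 1) * (2 * p) + 2 * p := by ring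
      rw [h3]
      omega

/-- a word with at least `r` slow letters has an initial part with exactly `r` of them -/
theorem exists_initial : ∀ (w : List G) (σ : ℤˣ) (r : ℕ), r ≤ nt ε α σ w →
    ∃ u v : List G, w = u ++ v ∧ nt ε α σ u = r := by
  intro w
  induction w with
  | nil => intro σ r hr; exact ⟨[], [], rfl, by simp only [nt] at hr ⊢; omega⟩
  | cons a w ih =>
    intro σ r hr
    by_cases ha : a = α σ
    · simp only [nt, if_pos ha] at hr
      obtain ⟨u, v, h1, h2⟩ := ih (σ * ε a) r (by omega)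
      exact ⟨a :: u, v, by rw [h1]; rfl, by simp only [nt, if_pos ha, h2]; omega⟩
    · simp only [nt, if_neg ha] at hr
      rcases Nat.eq_zero_or_pos r with h0 | h0
      · exact ⟨[], a :: w, rfl, by rw [h0]; rfl⟩
      · obtain ⟨u, v, h1, h2⟩ := ih (σ * ε a) (r - 1) (by omega)
        exact ⟨a :: u, v, by rw [h1]; rfl, by simp only [nt, if_neg ha, h2]; omega⟩

/-- Insert a fast block in front of the slow letters selected by the list of booleans. -/
def ins (p : ℕ) : ℤˣ → List G → List Bool → List G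
  | _, [], _ => []
  | σ, a :: w, b =>
    if a = α σ then a :: ins p (σ * ε a) w b
    else match b with
      | [] => a :: ins p (σ * ε a) w []
      | true :: b' => run ε α σ (2 * p) ++ a :: ins p (σ * ε a) w b'
      | false :: b' => a :: ins p (σ * ε a) w b'

theorem ins_length (p : ℕ) : ∀ (w : List G) (σ : ℤˣ) (b : List Bool),
    (ins ε α p σ w b).length ≤ w.length + 2 * p * b.length := by
  intro w
  induction w with
  | nil => intro σ b; simp [ins]
  | cons a w ih =>
    intro σ b
    by_cases ha : a = α σ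
    · have h1 := ih (σ * ε a) b
      simp only [ins, if_pos ha, List.length_cons]
      omega
    · match b with
      | [] =>
        have h1 := ih (σ * ε a) []
        simp only [ins, if_neg ha, List.length_cons]
        omega
      | true :: b' =>
        have h1 := ih (σ * ε a) b'
        simp only [ins, if_neg ha, List.length_cons, List.length_append, run_length]
        have : 2 * p * (b'.length + 1) = 2 * p * b'.length + 2 * p := by ring
        rw [this]; omega
      | false :: b' =>
        have h1 := ih (σ * ε a) b'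
        simp only [ins, if_neg ha, List.length_cons]
        have : 2 * p * (b'.length + 1) = 2 * p * b'.length + 2 * p := by ring
        rw [this]; omega

theorem ins_inj {p : ℕ} (hp : 0 < p) : ∀ (w : List G) (σ : ℤˣ) (b b' : List Bool),
    b.length = nt ε α σ w → b'.length = nt ε α σ w → ins ε α p σ w b = ins ε α p σ w b' →
    b = b' := by
  intro w
  induction w with
  | nil =>
    intro σ b b' h1 h2 _
    simp only [nt] at h1 h2
    rw [List.length_eq_zero_iff] at h1 h2
    rw [h1, h2]
  | cons a w ih =>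
    intro σ b b' h1 h2 h
    by_cases ha : a = α σ
    · simp only [nt, if_pos ha, zero_add] at h1 h2
      simp only [ins, if_pos ha, List.cons.injEq, true_and] at h
      exact ih (σ * ε a) b b' h1 h2 h
    · simp only [nt, if_neg ha, Nat.add_comm 1] at h1 h2
      obtain ⟨q, rfl⟩ : ∃ q, p = q + 1 := ⟨p - 1, by omega⟩
      have e2 : 2 * (q + 1) = 2 * q + 1 + 1 := by ring
      match b, b', h1, h2, h with
      | true :: c, true :: c', h1, h2, h =>
        simp only [ins, if_neg ha] at h
        have h3 := List.append_cancel_left h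
        simp only [List.cons.injEq, true_and] at h3
        rw [ih (σ * ε a) c c' (by simp only [List.length_cons] at h1; omega)
          (by simp only [List.length_cons] at h2; omega) h3]
      | false :: c, false :: c', h1, h2, h =>
        simp only [ins, if_neg ha, List.cons.injEq, true_and] at h
        rw [ih (σ * ε a) c c' (by simp only [List.length_cons] at h1; omega)
          (by simp only [List.length_cons] at h2; omega) h]
      | true :: c, false :: c', h1, h2, h =>
        simp only [ins, if_neg ha, e2, run, List.cons_append, List.cons.injEq] at h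
        exact absurd h.1.symm ha
      | false :: c, true :: c', h1, h2, h =>
        simp only [ins, if_neg ha, e2, run, List.cons_append, List.cons.injEq] at h
        exact absurd h.1 ha

end run

section tight

variable {ε : G →* ℤˣ} {α : ℤˣ → G} {χ : G → ℤ} {M : ℤ} {S : Set G} {N : Subgroup G}

theorem coset_insert [N.Normal] {p : ℕ} (hN : ∀ σ, (run ε α σ (2 * p)).prod ∈ N) (σ : ℤˣ)
    (u x : List G) :
    (((u ++ run ε α σ (2 * p) ++ x).prod : G) : G ⧸ N) = (((u ++ x).prod : G) : G ⧸ N) := by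
  have h1 : (((run ε α σ (2 * p)).prod : G) : G ⧸ N) = 1 := (QuotientGroup.eq_one_iff _).2 (hN σ)
  simp only [List.prod_append, QuotientGroup.mk_mul, h1, mul_one]

theorem ex_insert (hχ : ∀ g h, χ (g * h) = χ g + ((ε g : ℤˣ) : ℤ) * χ h)
    (hαM : ∀ σ : ℤˣ, (σ : ℤ) * χ (α σ) = M)
    (hloop : ∀ σ, ε (α σ) * ε (α (σ * ε (α σ))) = 1) {p : ℕ} (σ : ℤˣ) (u x : List G) :
    ex χ M σ (u ++ run ε α (σ * ε u.prod) (2 * p) ++ x) = ex χ M σ (u ++ x) := by
  rw [ex_append hχ, ex_append hχ, ex_append hχ, ex_run ε α hχ hαM, List.prod_append, map_mul,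
    run_even ε α hloop]
  ring_nf

theorem Tight.insert [N.Normal] (hχ : ∀ g h, χ (g * h) = χ g + ((ε g : ℤˣ) : ℤ) * χ h)
    (hα : ∀ σ, α σ ∈ S) (hαM : ∀ σ : ℤˣ, (σ : ℤ) * χ (α σ) = M)
    (hloop : ∀ σ, ε (α σ) * ε (α (σ * ε (α σ))) = 1) {p : ℕ}
    (hN : ∀ σ, (run ε α σ (2 * p)).prod ∈ N) {σ : ℤˣ} {u x : List G}
    (h : Tight χ M S N σ (u ++ x)) :
    Tight χ M S N σ (u ++ run ε α (σ * ε u.prod) (2 * p) ++ x) := by
  refine ⟨?_, fun w' hw' he => ?_⟩
  · intro s hs
    simp only [List.mem_append] at hs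
    rcases hs with (hs | hs) | hs
    · exact h.1 s (by simp [hs])
    · exact run_mem ε α hα _ _ s hs
    · exact h.1 s (by simp [hs])
  · have h1 := h.2 w' hw' (he.trans (coset_insert hN _ u x))
    rw [ex_insert hχ hαM hloop]
    exact h1

theorem Tight.remove [N.Normal] (hχ : ∀ g h, χ (g * h) = χ g + ((ε g : ℤˣ) : ℤ) * χ h)
    (hαM : ∀ σ : ℤˣ, (σ : ℤ) * χ (α σ) = M)
    (hloop : ∀ σ, ε (α σ) * ε (α (σ * ε (α σ))) = 1) {p : ℕ}
    (hN : ∀ σ, (run ε α σ (2 * p)).prod ∈ N) {σ : ℤˣ} {u x : List G}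
    (h : Tight χ M S N σ (u ++ run ε α (σ * ε u.prod) (2 * p) ++ x)) :
    Tight χ M S N σ (u ++ x) := by
  refine ⟨?_, fun w' hw' he => ?_⟩
  · intro s hs
    simp only [List.mem_append] at hs
    rcases hs with hs | hs
    · exact h.1 s (by simp [hs])
    · exact h.1 s (by simp [hs])
  · have h1 := h.2 w' hw' (he.trans (coset_insert hN _ u x).symm)
    rw [ex_insert hχ hαM hloop] at h1
    exact h1

theorem ins_tight [DecidableEq G] [N.Normal]
    (hχ : ∀ g h, χ (g * h) = χ g + ((ε g : ℤˣ) : ℤ) * χ h)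
    (hα : ∀ σ, α σ ∈ S) (hαM : ∀ σ : ℤˣ, (σ : ℤ) * χ (α σ) = M)
    (hloop : ∀ σ, ε (α σ) * ε (α (σ * ε (α σ))) = 1) {p : ℕ}
    (hN : ∀ σ, (run ε α σ (2 * p)).prod ∈ N) {σ : ℤˣ} : ∀ (w : List G) (b : List Bool) (u : List G),
    Tight χ M S N σ (u ++ w) → Tight χ M S N σ (u ++ ins ε α p (σ * ε u.prod) w b) := by
  intro w
  induction w with
  | nil => intro b u h; simpa [ins] using h
  | cons a w ih =>
    intro b u h
    have step : ∀ (b' : List Bool) (u' : List G), Tight χ M S N σ (u' ++ a :: w) →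
        Tight χ M S N σ (u' ++ a :: ins ε α p (σ * ε u'.prod * ε a) w b') := by
      intro b' u' h'
      have h1 := ih b' (u' ++ [a]) (by simpa using h')
      rw [List.prod_append, map_mul, List.prod_singleton, ← mul_assoc] at h1
      simpa using h1
    by_cases ha : a = α (σ * ε u.prod)
    · simp only [ins, if_pos ha]
      exact step b u h
    · match b with
      | [] => simp only [ins, if_neg ha]; exact step [] u h
      | true :: b' =>
        simp only [ins, if_neg ha]
        have h1 := step b' (u ++ run ε α (σ * ε u.prod) (2 * p)) (h.insert hχ hα hαM hloop hN)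
        rw [List.prod_append, map_mul, run_even ε α hloop, mul_one] at h1
        simpa using h1
      | false :: b' => simp only [ins, if_neg ha]; exact step b' u h

/-- If `N` has infinite index, there are tight words without long fast runs having any given
number of slow letters. -/
theorem exists_tight_nt [DecidableEq G] [N.Normal]
    (hχ : ∀ g h, χ (g * h) = χ g + ((ε g : ℤˣ) : ℤ) * χ h) (hNε : N ≤ ε.ker)
    (hαM : ∀ σ : ℤˣ, (σ : ℤ) * χ (α σ) = M)
    (hloop : ∀ σ, ε (α σ) * ε (α (σ * ε (α σ))) = 1)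
    (hM : ∀ s ∈ S, |χ s| ≤ M) (hS : S.Finite)
    (hgen : Submonoid.closure S = ⊤) {p : ℕ} (hp : 0 < p)
    (hN : ∀ σ, (run ε α σ (2 * p)).prod ∈ N) (hind : N.index = 0) (r : ℕ) :
    ∃ w, Tight χ M S N 1 w ∧ nt ε α 1 w = r ∧ w.length ≤ (r + 1) * (2 * p) := by
  -- minimal length gives no runs
  have norun : ∀ w : List G, Tight χ M S N 1 w →
      (∀ w', Tight χ M S N 1 w' → ((w'.prod : G) : G ⧸ N) = ((w.prod : G) : G ⧸ N) →
        nt ε α 1 w' = nt ε α 1 w → w.length ≤ w'.length) →
      w.length ≤ (nt ε α 1 w + 1) * (2 * p) := by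
    intro w hw hmin
    have h1 : ∀ x y, run ε α 1 0 ++ w ≠ x ++ run ε α (1 * ε x.prod) (2 * p) ++ y := by
      intro x y hxy
      simp only [run, List.nil_append] at hxy
      have h2 : Tight χ M S N 1 (x ++ run ε α (1 * ε x.prod) (2 * p) ++ y) := by
        rw [← hxy]; exact hw
      have h3 := h2.remove hχ hαM hloop hN
      have h4 : (((x ++ y).prod : G) : G ⧸ N) = ((w.prod : G) : G ⧸ N) := by
        rw [hxy, coset_insert hN]
      have h5 : nt ε α 1 (x ++ y) = nt ε α 1 w := by
        rw [hxy, nt_append, nt_append, nt_append, nt_run, List.prod_append, map_mul,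
          run_even ε α hloop, mul_one, add_zero]
      have h6 := hmin _ h3 h4 h5
      rw [hxy] at h6
      simp only [List.length_append, run_length] at h6
      omega
    have h7 := length_le_of_no_run ε α w 1 0 h1
    simp only [run, List.prod_nil, map_one, mul_one] at h7
    omega
  by_cases hex : ∃ w, Tight χ M S N 1 w ∧ r ≤ nt ε α 1 w
  · obtain ⟨w, hw, hr⟩ := hex
    obtain ⟨u, v, huv, hu⟩ := exists_initial ε α w 1 r hr
    have hut : Tight χ M S N 1 u := by
      rw [huv] at hw
      exact hw.init hχ hNε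
    have hex2 : ∃ m : ℕ, ∃ w, Tight χ M S N 1 w ∧
        ((w.prod : G) : G ⧸ N) = ((u.prod : G) : G ⧸ N) ∧
        nt ε α 1 w = nt ε α 1 u ∧ w.length = m := ⟨u.length, u, hut, rfl, rfl, rfl⟩
    classical
    obtain ⟨w', h1, h2, h3, h4⟩ := Nat.find_spec hex2
    refine ⟨w', h1, by rw [h3, hu], ?_⟩
    have h5 := norun w' h1 (fun w'' a b c => by
      rw [h4]; exact Nat.find_min' hex2 ⟨w'', a, b.trans h2, c.trans h3, rfl⟩)
    rwa [h3, hu] at h5
  · exfalso
    push Not at hex
    have hfin : {l : List G | (∀ s ∈ l, s ∈ S) ∧ l.length ≤ (r + 1) * (2 * p)}.Finite :=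
      Pool.Agent.Helper93.Geo.finite_words hS _
    have hfinq : Finite (G ⧸ N) := by
      have : Set.SurjOn (fun l : List G => ((l.prod : G) : G ⧸ N))
          {l : List G | (∀ s ∈ l, s ∈ S) ∧ l.length ≤ (r + 1) * (2 * p)} Set.univ := by
        intro q _
        obtain ⟨w, hw, hwq⟩ := exists_tight (N := N) hχ hM hgen 1 q
        have hex2 : ∃ m : ℕ, ∃ w', Tight χ M S N 1 w' ∧
            ((w'.prod : G) : G ⧸ N) = ((w.prod : G) : G ⧸ N) ∧
            nt ε α 1 w' = nt ε α 1 w ∧ w'.length = m := ⟨w.length, w, hw, rfl, rfl, rfl⟩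
        classical
        obtain ⟨w', h1, h2, h3, h4⟩ := Nat.find_spec hex2
        have h5 := norun w' h1 (fun w'' a b c => by
          rw [h4]; exact Nat.find_min' hex2 ⟨w'', a, b.trans h2, c.trans h3, rfl⟩)
        have h6 := hex w' h1
        refine ⟨w', ⟨h1.1, h5.trans ?_⟩, by simp only [h2, hwq]⟩
        exact Nat.mul_le_mul_right (2 * p) (by omega)
      have h := hfin.of_surjOn _ this
      exact Set.finite_univ_iff.1 h
    exact Subgroup.index_ne_zero_of_finite hind

/-- infinite index forces exponential geodesic growth -/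
theorem expo_of_index [N.Normal]
    (hχ : ∀ g h, χ (g * h) = χ g + ((ε g : ℤˣ) : ℤ) * χ h) (hNε : N ≤ ε.ker)
    (hα : ∀ σ, α σ ∈ S) (hαM : ∀ σ : ℤˣ, (σ : ℤ) * χ (α σ) = M)
    (hloop : ∀ σ, ε (α σ) * ε (α (σ * ε (α σ))) = 1) (hM0 : 0 < M)
    (hM : ∀ s ∈ S, |χ s| ≤ M) (hS : S.Finite)
    (hgen : Submonoid.closure S = ⊤) {p : ℕ} (hp : 0 < p)
    (hN : ∀ σ, (run ε α σ (2 * p)).prod ∈ N) (hind : N.index = 0) :
    ∀ n, 2 ^ (n / (6 * p)) ≤ geodesicGrowth S n := by
  classical
  intro n
  rcases Nat.eq_zero_or_pos (n / (6 * p)) with h0 | h0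
  · rw [h0]
    refine Pool.Agent.Helper93.Geo.growth_ge hS (r := 0) (fun _ => [])
      (fun b b' _ => Subsingleton.elim _ _) ?_
    intro _
    exact ⟨⟨by simp, fun _ _ _ => Nat.zero_le _⟩, Nat.zero_le _⟩
  obtain ⟨w, hw, hr, hlen⟩ := exists_tight_nt hχ hNε hαM hloop hM hS hgen hp hN hind (n / (6 * p))
  refine Pool.Agent.Helper93.Geo.growth_ge hS (fun b => ins ε α p 1 w b.1) ?_ ?_
  · intro b b' h
    exact Subtype.ext (ins_inj ε α hp w 1 b.1 b'.1 (by rw [hr]; exact b.2) (by rw [hr]; exact b'.2) h)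
  · intro b
    have h1 : Tight χ M S N 1 ([] ++ ins ε α p (1 * ε ([] : List G).prod) w b.1) :=
      ins_tight hχ hα hαM hloop hN w b.1 [] hw
    rw [List.prod_nil, map_one, mul_one, List.nil_append] at h1
    refine ⟨h1.geodesic hM0, ?_⟩
    have h2 := ins_length ε α p w 1 b.1
    rw [b.2] at h2
    have h3 : n / (6 * p) * (6 * p) ≤ n := Nat.div_mul_le_self n (6 * p)
    have h4 : (n / (6 * p) + 1) * (2 * p) ≤ 2 * (n / (6 * p)) * (2 * p) :=
      Nat.mul_le_mul_right (2 * p) (by omega)
    have h5 : n / (6 * p) * (6 * p) = 2 * (n / (6 * p)) * (2 * p) + 2 * p * (n / (6 * p)) := by ring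
    omega

/-- two different fast loops of length two give exponential geodesic growth -/
theorem expo_of_two (hχ : ∀ g h, χ (g * h) = χ g + ((ε g : ℤˣ) : ℤ) * χ h) (hM0 : 0 < M)
    (hM : ∀ s ∈ S, |χ s| ≤ M) (hS : S.Finite) {u v : List G} (huv : u ≠ v)
    (hul : u.length = 2) (hvl : v.length = 2) (hu : ∀ s ∈ u, s ∈ S) (hv : ∀ s ∈ v, s ∈ S)
    (hu1 : ε u.prod = 1) (hv1 : ε v.prod = 1) (hu0 : ex χ M 1 u = 0) (hv0 : ex χ M 1 v = 0) :
    ∀ n, 2 ^ (n / 2) ≤ geodesicGrowth S n := by
  intro n
  obtain ⟨f, hf⟩ : ∃ f : List Bool → List G, f = fun b => (b.map (fun c => if c then u else v)).flatten :=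
    ⟨_, rfl⟩
  have f0 : f [] = [] := by rw [hf]; rfl
  have f1 : ∀ c b, f (c :: b) = (if c then u else v) ++ f b := by
    intro c b
    rw [hf]
    simp
  have key : ∀ b : List Bool, (∀ a ∈ f b, a ∈ S) ∧ ex χ M 1 (f b) = 0 ∧ (f b).length = 2 * b.length := by
    intro b
    induction b with
    | nil => rw [f0]; exact ⟨by simp, ex_nil hχ 1, rfl⟩
    | cons c b ih =>
      rw [f1]
      obtain ⟨i1, i2, i3⟩ := ih
      cases c
      · refine ⟨?_, ?_, ?_⟩
        · intro a ha
          rcases List.mem_append.1 ha with ha | ha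
          · exact hv a ha
          · exact i1 a ha
        · change ex χ M 1 (v ++ f b) = 0
          rw [ex_append hχ, hv0, hv1, mul_one, i2, add_zero]
        · change (v ++ f b).length = _
          rw [List.length_append, hvl, i3, List.length_cons]; ring
      · refine ⟨?_, ?_, ?_⟩
        · intro a ha
          rcases List.mem_append.1 ha with ha | ha
          · exact hu a ha
          · exact i1 a ha
        · change ex χ M 1 (u ++ f b) = 0
          rw [ex_append hχ, hu0, hu1, mul_one, i2, add_zero]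
        · change (u ++ f b).length = _
          rw [List.length_append, hul, i3, List.length_cons]; ring
  have inj : ∀ b b' : List Bool, b.length = b'.length → f b = f b' → b = b' := by
    intro b
    induction b with
    | nil => intro b' h _; exact (List.length_eq_zero_iff.1 h.symm).symm
    | cons c b ih =>
      intro b' h he
      match b', h, he with
      | c' :: b', h, he =>
        rw [f1, f1] at he
        have hl : (if c then u else v).length = (if c' then u else v).length := by
          cases c <;> cases c' <;> simp [hul, hvl]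
        obtain ⟨e1, e2⟩ := List.append_inj he hl
        have e3 := ih b' (by simpa using h) e2
        rw [e3]
        congr 1
        cases c <;> cases c'
        · rfl
        · exact absurd e1.symm huv
        · exact absurd e1 huv
        · rfl
  refine Pool.Agent.Helper93.Geo.growth_ge hS (fun b => f b.1) ?_ ?_
  · intro b b' h
    exact Subtype.ext (inj b.1 b'.1 (by rw [b.2, b'.2]) h)
  · intro b
    obtain ⟨h1, h2, h3⟩ := key b.1
    refine ⟨geodesic_of_zero hχ hM hM0 h1 h2, ?_⟩
    rw [h3, b.2]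
    exact Nat.mul_div_le n 2

end tight

end Pool.Agent.Helper45.Geo
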