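import Pool.Agent.Helper45.Geo.Dihedral

/-!
# Geodesic growth of groups with an infinite dihedral quotient: the theorem
-/

set_option autoImplicit false

namespace Pool.Agent.Helper45.Geo

open Pool.Agent.Helper90.Spinal

variable {G : Type*} [Group G]

section core

variable {ε : G →* ℤˣ} {χ : G → ℤ} {M : ℤ} {S : Set G}

theorem chi_inv (hχ : ∀ g h, χ (g * h) = χ g + ((ε g : ℤˣ) : ℤ) * χ h) (g : G) :
    χ g⁻¹ = -(((ε g : ℤˣ) : ℤ) * χ g) := by
  have h := hχ g g⁻¹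
  rw [mul_inv_cancel, chi_one hχ] at h
  rcases Int.units_eq_one_or (ε g) with e | e
  · rw [e, Units.val_one] at h ⊢; linarith
  · rw [e, Units.val_neg, Units.val_one] at h ⊢; linarith

/-- Words of excess zero are fast words. -/
theorem zero_run (hχ : ∀ g h, χ (g * h) = χ g + ((ε g : ℤˣ) : ℤ) * χ h)
    (hM : ∀ s ∈ S, |χ s| ≤ M) {α : ℤˣ → G}
    (huni : ∀ σ : ℤˣ, ∀ s ∈ S, (σ : ℤ) * χ s = M → s = α σ) : ∀ (w : List G) (σ : ℤˣ),
    (∀ s ∈ w, s ∈ S) → ex χ M σ w = 0 → w = run ε α σ w.length := by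
  intro w
  induction w with
  | nil => intro σ _ _; rfl
  | cons a w ih =>
    intro σ hw h0
    have ha : a ∈ S := hw a List.mem_cons_self
    have hw' : ∀ s ∈ w, s ∈ S := fun s hs => hw s (List.mem_cons_of_mem _ hs)
    rw [ex_cons hχ] at h0
    have h1 := letter_nonneg hM σ ha
    have h2 := ex_nonneg hχ hM w (σ * ε a) hw'
    have h3 : (σ : ℤ) * χ a = M := by linarith
    have h4 : ex χ M (σ * ε a) w = 0 := by linarith
    have h5 := huni σ a ha h3
    rw [List.length_cons, run, ← h5, ← ih (σ * ε a) hw' h4]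

theorem run_trans {α : ℤˣ → G} (h : ∀ σ, ε (α σ) = 1) : ∀ (n : ℕ) (σ : ℤˣ),
    run ε α σ n = List.replicate n (α σ) := by
  intro n
  induction n with
  | zero => intro σ; rfl
  | succ n ih => intro σ; rw [run, h, mul_one, ih, List.replicate_succ]

theorem run_refl {α : ℤˣ → G} (h : ∀ σ, ε (α σ) = -1) : ∀ (k : ℕ),
    run ε α 1 (2 * k) = (List.replicate k [α 1, α (-1)]).flatten := by
  intro k
  induction k with
  | zero => rfl
  | succ k ih =>
    have h1 : 2 * (k + 1) = 2 * k + 1 + 1 := by ring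
    have h2 : (1 : ℤˣ) * -1 * -1 = 1 := by decide
    rw [h1, run, h, run, h, h2, ih, List.replicate_succ, List.flatten_cons, one_mul]
    rfl

theorem core (hχ : ∀ g h, χ (g * h) = χ g + ((ε g : ℤˣ) : ℤ) * χ h) (hM0 : 0 < M)
    (hM : ∀ s ∈ S, |χ s| ≤ M) (hS : S.Finite) (hsym : ∀ s ∈ S, s⁻¹ ∈ S)
    (hgen : Submonoid.closure S = ⊤) (hatt : ∃ s ∈ S, |χ s| = M)
    (hcen : ∀ r ∈ S, ε r = -1 → |χ r| = M →
      (∃ r1 ∈ S, ε r1 = -1 ∧ χ r1 = M) ∧ ∃ r2 ∈ S, ε r2 = -1 ∧ χ r2 = -M)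
    (hγ : ¬ ∃ K : ℕ, 0 < K ∧ ∀ n, 2 ^ (n / K) ≤ geodesicGrowth S n) :
    ∃ α : ℤˣ → G, (∀ σ, α σ ∈ S) ∧ (∀ σ : ℤˣ, (σ : ℤ) * χ (α σ) = M) ∧
      (∀ σ, ε (α σ) = ε (α 1)) ∧ (∀ σ : ℤˣ, ∀ s ∈ S, (σ : ℤ) * χ s = M → s = α σ) ∧
      ∀ p : ℕ, 0 < p → (Subgroup.normalClosure {(run ε α 1 (2 * p)).prod}).FiniteIndex := by
  -- a letter with the value `M`
  obtain ⟨a, haS, haM⟩ : ∃ a ∈ S, χ a = M := by
    obtain ⟨s, hs, hsM⟩ := hatt
    rcases (abs_eq hM0.le).1 hsM with h | h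
    · exact ⟨s, hs, h⟩
    · rcases Int.units_eq_one_or (ε s) with e | e
      · refine ⟨s⁻¹, hsym s hs, ?_⟩
        rw [chi_inv hχ, e, h, Units.val_one]; ring
      · obtain ⟨⟨r1, h1, h2, h3⟩, -⟩ := hcen s hs e hsM
        exact ⟨r1, h1, h3⟩
  have absM : |M| = M := abs_of_pos hM0
  obtain ⟨b, hbS, hbM, hbε, hba⟩ : ∃ b ∈ S, χ b = -M ∧ ε b = ε a ∧ (ε a = 1 → b = a⁻¹) := by
    rcases Int.units_eq_one_or (ε a) with e | e
    · refine ⟨a⁻¹, hsym a haS, ?_, ?_, fun _ => rfl⟩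
      · rw [chi_inv hχ, e, haM, Units.val_one]; ring
      · rw [map_inv, e, inv_one]
    · obtain ⟨-, r2, h1, h2, h3⟩ := hcen a haS e (by rw [haM, absM])
      refine ⟨r2, h1, h3, by rw [h2, e], fun h => ?_⟩
      rw [e] at h
      exact absurd h (by decide)
  -- loops
  have hloop2 : ∀ x ∈ S, χ x = M → ∃ x' ∈ S, ε [x, x'].prod = 1 ∧ ex χ M 1 [x, x'] = 0 := by
    intro x hx hxM
    rcases Int.units_eq_one_or (ε x) with e | e
    · refine ⟨x, hx, by simp [e], ?_⟩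
      rw [ex_cons hχ, ex_single, e, hxM, mul_one, Units.val_one]; ring
    · obtain ⟨-, r2, h1, h2, h3⟩ := hcen x hx e (by rw [hxM, absM])
      refine ⟨r2, h1, by simp [e, h2], ?_⟩
      rw [ex_cons hχ, ex_single, e, hxM, h3, one_mul, Units.val_neg, Units.val_one]; ring
  have mem2 : ∀ {x y : G}, x ∈ S → y ∈ S → ∀ s ∈ [x, y], s ∈ S := by
    intro x y hx hy s hs
    simp only [List.mem_cons, List.not_mem_nil, or_false] at hs
    rcases hs with rfl | rfl
    · exact hx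
    · exact hy
  -- uniqueness at the state `1`
  have uni1 : ∀ s ∈ S, χ s = M → s = a := by
    intro s hs hsM
    by_contra hne
    obtain ⟨s', h1, h2, h3⟩ := hloop2 s hs hsM
    obtain ⟨a', h4, h5, h6⟩ := hloop2 a haS haM
    refine hγ ⟨2, by norm_num, expo_of_two hχ hM0 hM hS (u := [s, s']) (v := [a, a']) ?_ rfl rfl
      (mem2 hs h1) (mem2 haS h4) h2 h5 h3 h6⟩
    intro he
    rw [List.cons.injEq] at he
    exact hne he.1
  have uni2 : ∀ s ∈ S, χ s = -M → s = b := by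
    intro s hs hsM
    rcases Int.units_eq_one_or (ε s) with e | e
    · have h1 : χ s⁻¹ = M := by rw [chi_inv hχ, e, hsM, Units.val_one]; ring
      have h2 := uni1 _ (hsym s hs) h1
      have h3 : ε a = 1 := by rw [← h2, map_inv, e, inv_one]
      rw [hba h3, ← h2, inv_inv]
    · obtain ⟨⟨r1, h1, h2, h3⟩, -⟩ := hcen s hs e (by rw [hsM, abs_neg, absM])
      have h4 := uni1 r1 h1 h3
      rw [h4] at h2
      by_contra hne
      have hl : ∀ y ∈ S, ε y = -1 → χ y = -M → ε [a, y].prod = 1 ∧ ex χ M 1 [a, y] = 0 := by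
        intro y _ hy1 hy2
        refine ⟨by simp [h2, hy1], ?_⟩
        rw [ex_cons hχ, ex_single, h2, haM, hy2, one_mul, Units.val_neg, Units.val_one]; ring
      obtain ⟨k1, k2⟩ := hl s hs e hsM
      obtain ⟨k3, k4⟩ := hl b hbS (by rw [hbε, h2]) hbM
      refine hγ ⟨2, by norm_num, expo_of_two hχ hM0 hM hS (u := [a, s]) (v := [a, b]) ?_ rfl rfl
        (mem2 haS hs) (mem2 haS hbS) k1 k3 k2 k4⟩
      intro he
      simp only [List.cons.injEq, true_and, and_true] at he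
      exact hne he
  obtain ⟨α, hαd⟩ : ∃ α : ℤˣ → G, α = fun σ => if σ = 1 then a else b := ⟨_, rfl⟩
  have α1 : α 1 = a := by rw [hαd]; exact if_pos rfl
  have α2 : α (-1) = b := by rw [hαd]; exact if_neg (by decide)
  have hα : ∀ σ, α σ ∈ S := by
    intro σ
    rcases Int.units_eq_one_or σ with rfl | rfl
    · rw [α1]; exact haS
    · rw [α2]; exact hbS
  have hαM : ∀ σ : ℤˣ, (σ : ℤ) * χ (α σ) = M := by
    intro σ
    rcases Int.units_eq_one_or σ with rfl | rfl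
    · rw [α1, haM, Units.val_one, one_mul]
    · rw [α2, hbM, Units.val_neg, Units.val_one]; ring
  have hαε : ∀ σ, ε (α σ) = ε (α 1) := by
    intro σ
    rcases Int.units_eq_one_or σ with rfl | rfl
    · rfl
    · rw [α2, α1, hbε]
  have hloop : ∀ σ, ε (α σ) * ε (α (σ * ε (α σ))) = 1 := by
    intro σ
    rw [hαε (σ * ε (α σ)), hαε σ, Int.units_mul_self]
  refine ⟨α, hα, hαM, hαε, ?_, ?_⟩
  · intro σ s hs h
    rcases Int.units_eq_one_or σ with rfl | rfl
    · rw [Units.val_one, one_mul] at h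
      rw [α1]; exact uni1 s hs h
    · rw [Units.val_neg, Units.val_one] at h
      rw [α2]; exact uni2 s hs (by linarith)
  · intro p hp
    by_contra hnot
    obtain ⟨N, hNd⟩ : ∃ N : Subgroup G, N = Subgroup.normalClosure {(run ε α 1 (2 * p)).prod} :=
      ⟨_, rfl⟩
    rw [← hNd] at hnot
    have hNn : N.Normal := by rw [hNd]; infer_instance
    have hind : N.index = 0 := by
      by_contra h
      exact hnot ⟨h⟩
    have hN1 : (run ε α 1 (2 * p)).prod ∈ N := by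
      rw [hNd]; exact Subgroup.subset_normalClosure rfl
    have hNε : N ≤ ε.ker := by
      rw [hNd]
      refine Subgroup.normalClosure_le_normal ?_
      rw [Set.singleton_subset_iff]
      exact run_even ε α hloop p 1
    have hN : ∀ σ, (run ε α σ (2 * p)).prod ∈ N := by
      intro σ
      rcases Int.units_eq_one_or σ with rfl | rfl
      · exact hN1
      · rcases Int.units_eq_one_or (ε (α 1)) with e | e
        · have h1 : ∀ σ, ε (α σ) = 1 := fun σ => by rw [hαε, e]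
          rw [run_trans h1, List.prod_replicate, α1] at hN1
          rw [run_trans h1, List.prod_replicate, α2, hba (by rw [← α1, e]), inv_pow]
          exact N.inv_mem hN1
        · have h1 : run ε α 1 (1 + 2 * p) = α 1 :: run ε α (-1) (2 * p) := by
            rw [run_add]
            simp [run, e]
          have h2 : run ε α 1 (2 * p + 1) = run ε α 1 (2 * p) ++ [α 1] := by
            rw [run_add, run_even ε α hloop, mul_one]
            rfl
          have h3 : α 1 * (run ε α (-1) (2 * p)).prod = (run ε α 1 (2 * p)).prod * α 1 := by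
            have h4 : (run ε α 1 (1 + 2 * p)).prod = (run ε α 1 (2 * p + 1)).prod := by
              rw [add_comm]
            rw [h1, h2, List.prod_cons, List.prod_append, List.prod_singleton] at h4
            exact h4
          have h5 : (run ε α (-1) (2 * p)).prod =
              (α 1)⁻¹ * (run ε α 1 (2 * p)).prod * ((α 1)⁻¹)⁻¹ := by
            rw [inv_inv, mul_assoc, ← h3, inv_mul_cancel_left]
          rw [h5]
          exact hNn.conj_mem _ hN1 _
    exact hγ ⟨6 * p, by omega, expo_of_index hχ hNε hα hαM hloop hM0 hM hS hgen hp hN hind⟩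

end core

/-- **Geodesic growth of groups with an infinite dihedral quotient.** -/
theorem dihedral_criterion (ε : G →* ℤˣ) (χ : G → ℤ)
    (hχ : ∀ g h, χ (g * h) = χ g + ((ε g : ℤˣ) : ℤ) * χ h) (hne : ∃ g, ε g = 1 ∧ χ g ≠ 0)
    (S : Set G) (hS : S.Finite) (hsym : ∀ s ∈ S, s⁻¹ ∈ S) (hgen : Subgroup.closure S = ⊤)
    (hγ : ¬ ∃ K : ℕ, 0 < K ∧ ∀ n, 2 ^ (n / K) ≤ geodesicGrowth S n) :
    (∃ u : List G, (u.length = 1 ∨ u.length = 2) ∧ (∀ s ∈ u, s ∈ S) ∧ ε u.prod = 1 ∧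
      0 < χ u.prod ∧
      (∀ w : List G, (∀ s ∈ w, s ∈ S) → ε w.prod = 1 →
        (u.length : ℤ) * χ w.prod ≤ (w.length : ℤ) * χ u.prod ∧
        ((u.length : ℤ) * χ w.prod = (w.length : ℤ) * χ u.prod →
          ∃ k : ℕ, w = (List.replicate k u).flatten)) ∧
      ∀ p : ℕ, 0 < p → (Subgroup.normalClosure {u.prod ^ p}).FiniteIndex) ∧
    ∀ N : Subgroup G, N.Normal → (∀ g : G, ∃ k : ℕ, 0 < k ∧ g ^ k ∈ N) → N.FiniteIndex := by
  have hgen' : Submonoid.closure S = ⊤ := by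
    have h1 : S⁻¹ ⊆ S := by
      intro s hs
      have := hsym _ (Set.mem_inv.1 hs)
      rwa [inv_inv] at this
    have h2 := Subgroup.closure_toSubmonoid S
    rw [hgen, Set.union_eq_self_of_subset_right h1] at h2
    rw [← h2]
    rfl
  -- the centre
  obtain ⟨c, hc⟩ : ∃ c : ℤ, ∀ r ∈ S, ε r = -1 →
      (∃ r1 ∈ S, ε r1 = -1 ∧ |2 * χ r - c| ≤ 2 * χ r1 - c) ∧
      (∃ r2 ∈ S, ε r2 = -1 ∧ |2 * χ r - c| ≤ -(2 * χ r2 - c)) := by
    by_cases hR : ∃ r, r ∈ {r ∈ S | ε r = -1}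
    · obtain ⟨r0, hr0⟩ := hR
      have hf : {r ∈ S | ε r = -1}.Finite := hS.subset fun r hr => hr.1
      obtain ⟨rA, hA1, hA2⟩ := Set.exists_max_image _ χ hf ⟨r0, hr0⟩
      obtain ⟨rB, hB1, hB2⟩ := Set.exists_min_image _ χ hf ⟨r0, hr0⟩
      refine ⟨χ rA + χ rB, fun r hr hrε => ?_⟩
      have h1 := hA2 r ⟨hr, hrε⟩
      have h2 := hB2 r ⟨hr, hrε⟩
      have h3 := hB2 rA hA1
      refine ⟨⟨rA, hA1.1, hA1.2, ?_⟩, ⟨rB, hB1.1, hB1.2, ?_⟩⟩
      · rw [abs_le]; constructor <;> linarith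
      · rw [abs_le]; constructor <;> linarith
    · exact ⟨0, fun r hr hrε => absurd ⟨r, hr, hrε⟩ hR⟩
  obtain ⟨ψ, hψ⟩ : ∃ ψ : G → ℤ, ψ = fun g => 2 * χ g - (if ε g = 1 then 0 else c) := ⟨_, rfl⟩
  have ψ1 : ∀ g, ε g = 1 → ψ g = 2 * χ g := by
    intro g hg
    rw [hψ]
    simp [hg]
  have ψ2 : ∀ g, ε g = -1 → ψ g = 2 * χ g - c := by
    intro g hg
    rw [hψ]
    have : (-1 : ℤˣ) ≠ 1 := by decide
    simp [hg, this]
  have hψχ : ∀ g h, ψ (g * h) = ψ g + ((ε g : ℤˣ) : ℤ) * ψ h := by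
    intro g h
    have h0 := hχ g h
    rcases Int.units_eq_one_or (ε g) with e | e <;> rcases Int.units_eq_one_or (ε h) with e' | e'
    · rw [ψ1 g e, ψ1 h e', ψ1 (g * h) (by rw [map_mul, e, e']; rfl), h0, e, Units.val_one]; ring
    · rw [ψ1 g e, ψ2 h e', ψ2 (g * h) (by rw [map_mul, e, e']; rfl), h0, e, Units.val_one]; ring
    · rw [ψ2 g e, ψ1 h e', ψ2 (g * h) (by rw [map_mul, e, e']; rfl), h0, e, Units.val_neg,
        Units.val_one]; ring
    · rw [ψ2 g e, ψ2 h e', ψ1 (g * h) (by rw [map_mul, e, e']; rfl), h0, e, Units.val_neg,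
        Units.val_one]; ring
  -- the largest value
  obtain ⟨g0, hg1, hg2⟩ := hne
  have hpos : ∃ s ∈ S, ψ s ≠ 0 := by
    by_contra hcon
    push Not at hcon
    have hall : ∀ g : G, ψ g = 0 := by
      intro g
      have hg : g ∈ Submonoid.closure S := by rw [hgen']; trivial
      induction hg using Submonoid.closure_induction with
      | mem x hx => exact hcon x hx
      | one => exact chi_one hψχ
      | mul x y _ _ hx hy => rw [hψχ, hx, hy]; ring
    have := hall g0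
    rw [ψ1 g0 hg1] at this
    exact hg2 (by linarith)
  obtain ⟨s0, hs0, hs1⟩ := hpos
  obtain ⟨sM, hsM, hmax⟩ := Set.exists_max_image S (fun s => |ψ s|) hS ⟨s0, hs0⟩
  have hM0 : 0 < |ψ sM| := lt_of_lt_of_le (abs_pos.2 hs1) (hmax s0 hs0)
  obtain ⟨M, hMd⟩ : ∃ M, M = |ψ sM| := ⟨_, rfl⟩
  rw [← hMd] at hM0
  have hM : ∀ s ∈ S, |ψ s| ≤ M := fun s hs => by rw [hMd]; exact hmax s hs
  have hcen : ∀ r ∈ S, ε r = -1 → |ψ r| = M →
      (∃ r1 ∈ S, ε r1 = -1 ∧ ψ r1 = M) ∧ ∃ r2 ∈ S, ε r2 = -1 ∧ ψ r2 = -M := by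
    intro r hr hrε hrM
    obtain ⟨⟨r1, h1, h2, h3⟩, ⟨r2, h4, h5, h6⟩⟩ := hc r hr hrε
    rw [← ψ2 r hrε, hrM, ← ψ2 r1 h2] at h3
    rw [← ψ2 r hrε, hrM, ← ψ2 r2 h5] at h6
    have h7 := abs_le.1 (hM r1 h1)
    have h8 := abs_le.1 (hM r2 h4)
    exact ⟨⟨r1, h1, h2, le_antisymm h7.2 h3⟩, ⟨r2, h4, h5, by linarith [h8.1]⟩⟩
  obtain ⟨α, hα, hαM, hαε, huni, hfi⟩ := core hψχ hM0 hM hS hsym hgen' ⟨sM, hsM, hMd.symm⟩ hcen hγ
  have hloop : ∀ σ, ε (α σ) * ε (α (σ * ε (α σ))) = 1 := by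
    intro σ
    rw [hαε (σ * ε (α σ)), hαε σ, Int.units_mul_self]
  have key : ∀ u : List G, (∀ s ∈ u, s ∈ S) → 0 < u.length → ε u.prod = 1 → ex ψ M 1 u = 0 →
      0 < χ u.prod ∧ ∀ w : List G, (∀ s ∈ w, s ∈ S) → ε w.prod = 1 →
        (u.length : ℤ) * χ w.prod ≤ (w.length : ℤ) * χ u.prod ∧
        ((u.length : ℤ) * χ w.prod = (w.length : ℤ) * χ u.prod → ex ψ M 1 w = 0) := by
    intro u hu hl hu1 hu0
    have h1 : M * (u.length : ℤ) = 2 * χ u.prod := by
      simp only [ex, Units.val_one, one_mul, ψ1 u.prod hu1] at hu0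
      linarith
    have hlz : (0 : ℤ) < u.length := by exact_mod_cast hl
    refine ⟨by nlinarith, fun w hw hw1 => ?_⟩
    have h2 := ex_nonneg hψχ hM w 1 hw
    simp only [ex, Units.val_one, one_mul, ψ1 w.prod hw1] at h2 ⊢
    have h3 : 2 * ((w.length : ℤ) * χ u.prod - (u.length : ℤ) * χ w.prod) =
        (u.length : ℤ) * (M * (w.length : ℤ) - 2 * χ w.prod) := by
      linear_combination (-(w.length : ℤ)) * h1
    constructor
    · have := mul_nonneg hlz.le h2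
      linarith
    · intro he
      rw [he, sub_self, mul_zero] at h3
      rcases mul_eq_zero.1 h3.symm with h4 | h4
      · omega
      · exact h4
  have main : ∃ u : List G, (u.length = 1 ∨ u.length = 2) ∧ (∀ s ∈ u, s ∈ S) ∧ ε u.prod = 1 ∧
      0 < χ u.prod ∧
      (∀ w : List G, (∀ s ∈ w, s ∈ S) → ε w.prod = 1 →
        (u.length : ℤ) * χ w.prod ≤ (w.length : ℤ) * χ u.prod ∧
        ((u.length : ℤ) * χ w.prod = (w.length : ℤ) * χ u.prod →
          ∃ k : ℕ, w = (List.replicate k u).flatten)) ∧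
      ∀ p : ℕ, 0 < p → (Subgroup.normalClosure {u.prod ^ p}).FiniteIndex := by
    rcases Int.units_eq_one_or (ε (α 1)) with e | e
    · have h1 : ∀ σ, ε (α σ) = 1 := fun σ => by rw [hαε, e]
      have hu : ∀ s ∈ [α 1], s ∈ S := by
        intro s hs
        rw [List.mem_singleton.1 hs]; exact hα 1
      obtain ⟨k1, k2⟩ := key [α 1] hu (by simp) (by simpa using e)
        (by rw [ex_single]; have := hαM 1; linarith)
      refine ⟨[α 1], Or.inl rfl, hu, by simpa using e, k1, fun w hw hw1 => ?_, fun p hp => ?_⟩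
      · refine ⟨(k2 w hw hw1).1, fun he => ⟨w.length, ?_⟩⟩
        have h2 := zero_run hψχ hM huni w 1 hw ((k2 w hw hw1).2 he)
        rw [run_trans h1] at h2
        rw [List.flatten_replicate_singleton]
        exact h2
      · have h2 := hfi p hp
        rw [run_trans h1, List.prod_replicate] at h2
        rw [List.prod_singleton]
        refine @Subgroup.finiteIndex_of_le _ _ _ _ h2 ?_
        refine Subgroup.normalClosure_le_normal ?_
        rw [Set.singleton_subset_iff]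
        have h3 : α 1 ^ p ∈ Subgroup.normalClosure {α 1 ^ p} := Subgroup.subset_normalClosure rfl
        have h4 : α 1 ^ (2 * p) = α 1 ^ p * α 1 ^ p := by rw [← pow_add]; congr 1; ring
        rw [h4]
        exact Subgroup.mul_mem _ h3 h3
    · have h1 : ∀ σ, ε (α σ) = -1 := fun σ => by rw [hαε, e]
      have hu : ∀ s ∈ [α 1, α (-1)], s ∈ S := by
        intro s hs
        simp only [List.mem_cons, List.not_mem_nil, or_false] at hs
        rcases hs with rfl | rfl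
        · exact hα 1
        · exact hα (-1)
      have hu1 : ε [α 1, α (-1)].prod = 1 := by simp [h1]
      have hu0 : ex ψ M 1 [α 1, α (-1)] = 0 := by
        have h2 := ex_run ε α hψχ hαM 2 1
        simpa [run, h1] using h2
      obtain ⟨k1, k2⟩ := key [α 1, α (-1)] hu (by simp) hu1 hu0
      refine ⟨[α 1, α (-1)], Or.inr rfl, hu, hu1, k1, fun w hw hw1 => ?_, fun p hp => ?_⟩
      · refine ⟨(k2 w hw hw1).1, fun he => ?_⟩
        have h2 := zero_run hψχ hM huni w 1 hw ((k2 w hw hw1).2 he)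
        rcases Nat.even_or_odd' w.length with ⟨k, hk | hk⟩
        · refine ⟨k, ?_⟩
          rw [← run_refl h1, ← hk]
          exact h2
        · exfalso
          rw [hk, run_add] at h2
          rw [h2, List.prod_append, map_mul, run_even ε α hloop, one_mul] at hw1
          simp [run, h1] at hw1
      · have h2 := hfi p hp
        rw [run_refl h1] at h2
        have h3 : ((List.replicate p [α 1, α (-1)]).flatten).prod = [α 1, α (-1)].prod ^ p := by
          rw [List.prod_flatten, List.map_replicate, List.prod_replicate]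
        rw [h3] at h2
        exact h2
  refine ⟨main, fun N hN htor => ?_⟩
  obtain ⟨u, -, -, -, -, -, hu⟩ := main
  obtain ⟨k, hk, hkN⟩ := htor u.prod
  refine @Subgroup.finiteIndex_of_le _ _ _ _ (hu k hk) ?_
  refine Subgroup.normalClosure_le_normal ?_
  rw [Set.singleton_subset_iff]
  exact hkN

/-- If the normal closure of a translation `z` has finite index, any other cocycle with the same
signs is proportional to `χ` on the translations. -/
theorem rank_one (ε : G →* ℤˣ) (χ χ' : G → ℤ)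
    (hχ : ∀ g h, χ (g * h) = χ g + ((ε g : ℤˣ) : ℤ) * χ h)
    (hχ' : ∀ g h, χ' (g * h) = χ' g + ((ε g : ℤˣ) : ℤ) * χ' h) (z : G) (hz : ε z = 1)
    (hf : (Subgroup.normalClosure {z}).FiniteIndex) (g : G) (hg : ε g = 1) :
    χ z * χ' g = χ' z * χ g := by
  obtain ⟨ψ, hψ⟩ : ∃ ψ : G → ℤ, ∀ g, ψ g = χ z * χ' g - χ' z * χ g := ⟨_, fun g => rfl⟩
  have hψm : ∀ g h, ψ (g * h) = ψ g + ((ε g : ℤˣ) : ℤ) * ψ h := by
    intro g h
    rw [hψ, hψ, hψ, hχ, hχ']
    ring
  have hψ1 : ψ 1 = 0 := chi_one hψm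
  have hψz : ψ z = 0 := by rw [hψ]; ring
  have hmul : ∀ a b, ε a = 1 → ψ (a * b) = ψ a + ψ b := by
    intro a b ha
    rw [hψm, ha, Units.val_one, one_mul]
  obtain ⟨K, hK⟩ : ∃ K : Subgroup G, ∀ x, x ∈ K ↔ ε x = 1 ∧ ψ x = 0 :=
    ⟨{ carrier := {x | ε x = 1 ∧ ψ x = 0}
       mul_mem' := by
         rintro a b ⟨ha, ha'⟩ ⟨hb, hb'⟩
         refine ⟨by rw [map_mul, ha, hb, one_mul], ?_⟩
         rw [hmul a b ha, ha', hb', add_zero]
       one_mem' := ⟨map_one ε, hψ1⟩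
       inv_mem' := by
         rintro a ⟨ha, ha'⟩
         refine ⟨by rw [map_inv, ha, inv_one], ?_⟩
         rw [chi_inv hψm, ha, ha']
         ring }, fun x => Iff.rfl⟩
  have hKn : K.Normal := by
    refine ⟨fun n hn h => ?_⟩
    obtain ⟨h1, h2⟩ := (hK n).1 hn
    refine (hK _).2 ⟨by rw [map_mul, map_mul, h1, mul_one, map_inv, mul_inv_cancel], ?_⟩
    have h3 : ψ (h * n * h⁻¹) = ψ (h * h⁻¹) := by
      rw [mul_assoc, hψm h (n * h⁻¹), hmul n h⁻¹ h1, h2, zero_add, ← hψm]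
    rw [h3, mul_inv_cancel, hψ1]
  have hle : Subgroup.normalClosure {z} ≤ K := by
    refine Subgroup.normalClosure_le_normal ?_
    rw [Set.singleton_subset_iff]
    exact (hK z).2 ⟨hz, hψz⟩
  have hKf : K.FiniteIndex := @Subgroup.finiteIndex_of_le _ _ _ _ hf hle
  obtain ⟨m, hm, -, hmK⟩ := Subgroup.exists_pow_mem_of_index_ne_zero hKf.index_ne_zero g
  have hpow : ∀ k : ℕ, ψ (g ^ k) = k * ψ g := by
    intro k
    induction k with
    | zero => simp [hψ1]
    | succ k ih =>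
      rw [pow_succ', hmul g _ hg, ih]
      push_cast
      ring
  have h0 := ((hK _).1 hmK).2
  rw [hpow] at h0
  rcases mul_eq_zero.1 h0 with h1 | h1
  · have : m = 0 := by exact_mod_cast h1
    omega
  · rw [hψ] at h1
    linarith

/-- **Geodesic growth of groups with an infinite dihedral quotient**, with the statement on other
cocycles. -/
theorem dihedral_full (ε : G →* ℤˣ) (χ : G → ℤ)
    (hχ : ∀ g h, χ (g * h) = χ g + ((ε g : ℤˣ) : ℤ) * χ h) (hne : ∃ g, ε g = 1 ∧ χ g ≠ 0)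
    (S : Set G) (hS : S.Finite) (hsym : ∀ s ∈ S, s⁻¹ ∈ S) (hgen : Subgroup.closure S = ⊤)
    (hγ : ¬ ∃ K : ℕ, 0 < K ∧ ∀ n, 2 ^ (n / K) ≤ geodesicGrowth S n) :
    (∃ u : List G, (u.length = 1 ∨ u.length = 2) ∧ (∀ s ∈ u, s ∈ S) ∧ ε u.prod = 1 ∧
      0 < χ u.prod ∧
      (∀ w : List G, (∀ s ∈ w, s ∈ S) → ε w.prod = 1 →
        (u.length : ℤ) * χ w.prod ≤ (w.length : ℤ) * χ u.prod ∧
        ((u.length : ℤ) * χ w.prod = (w.length : ℤ) * χ u.prod →
          ∃ k : ℕ, w = (List.replicate k u).flatten)) ∧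
      ∀ p : ℕ, 0 < p → (Subgroup.normalClosure {u.prod ^ p}).FiniteIndex) ∧
    (∀ N : Subgroup G, N.Normal → (∀ g : G, ∃ k : ℕ, 0 < k ∧ g ^ k ∈ N) → N.FiniteIndex) ∧
    ∀ χ' : G → ℤ, (∀ g h, χ' (g * h) = χ' g + ((ε g : ℤˣ) : ℤ) * χ' h) →
      ∃ a b : ℤ, a ≠ 0 ∧ ∀ g, ε g = 1 → a * χ' g = b * χ g := by
  obtain ⟨h1, h2⟩ := dihedral_criterion ε χ hχ hne S hS hsym hgen hγ
  refine ⟨h1, h2, fun χ' hχ' => ?_⟩
  obtain ⟨u, -, -, hu1, hu2, -, hu3⟩ := h1
  have h3 := hu3 1 one_pos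
  rw [pow_one] at h3
  exact ⟨χ u.prod, χ' u.prod, hu2.ne', fun g hg => rank_one ε χ χ' hχ hχ' u.prod hu1 h3 g hg⟩

end Pool.Agent.Helper45.Geo
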